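import Mathlib
import Pool.Agent.W662.KKS.Stmts

/-!
From similarity to unitary equivalence.
-/

set_option autoImplicit false

open scoped InnerProductSpace

namespace Pool.Agent.W345.KKS

section root

variable {A : Type} [NormedRing A] [NormedAlgebra ℂ A]

/-- the map `z ↦ a z b` -/
noncomputable def Lr (a b : A) : A →L[ℂ] A :=
  (ContinuousLinearMap.mul ℂ A a) ∘L ((ContinuousLinearMap.mul ℂ A).flip b)

theorem Lr_apply (a b z : A) : Lr a b z = a * (z * b) := rfl

/-- the iteration -/
noncomputable def Dj (T : A →L[ℂ] A) : ℕ → (A →L[ℂ] A)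
  | 0 => 0
  | j + 1 => (2⁻¹ : ℂ) • (T - Dj T j ∘L Dj T j)

theorem root_mem (hone : ‖(1 : A)‖ ≤ 1) (S : Submodule ℂ A) (hS : IsClosed (S : Set A))
    (h hi : A) (h1 : h * hi = 1) (h2 : hi * h = 1) (hn : ‖h - 1‖ ≤ 1 / 30)
    (hT : ∀ z ∈ S, h * (h * (z * hi) * hi) ∈ S) : ∀ z ∈ S, h * (z * hi) ∈ S := by
  have hhi : ‖hi‖ ≤ 30 / 29 := by
    have e : hi = 1 - hi * (h - 1) := by rw [mul_sub, h2, mul_one]; abel
    have h3 : ‖hi‖ ≤ 1 + ‖hi‖ * (1 / 30) := by
      conv_lhs => rw [e]
      refine (norm_sub_le _ _).trans ?_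
      refine add_le_add hone ((norm_mul_le _ _).trans ?_)
      exact mul_le_mul_of_nonneg_left hn (norm_nonneg _)
    linarith
  set D : A →L[ℂ] A := Lr h hi - ContinuousLinearMap.id ℂ A with hD
  set T : A →L[ℂ] A := (2 : ℂ) • D + D ∘L D with hTd
  have hDn : ‖D‖ ≤ 1 / 10 := by
    refine ContinuousLinearMap.opNorm_le_bound _ (by norm_num) fun z => ?_
    have e : D z = ((h - 1) * z - z * (h - 1)) * hi := by
      simp only [hD, _root_.sub_apply, Lr_apply, ContinuousLinearMap.id_apply]
      have : z * h * hi = z := by rw [mul_assoc, h1, mul_one]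
      simp only [sub_mul, mul_sub, one_mul, mul_one]
      rw [this]
      simp only [mul_assoc]
      abel
    rw [e]
    calc ‖((h - 1) * z - z * (h - 1)) * hi‖ ≤ ‖(h - 1) * z - z * (h - 1)‖ * ‖hi‖ := norm_mul_le _ _
      _ ≤ (‖h - 1‖ * ‖z‖ + ‖z‖ * ‖h - 1‖) * ‖hi‖ := by
          refine mul_le_mul_of_nonneg_right ?_ (norm_nonneg _)
          exact (norm_sub_le _ _).trans (add_le_add (norm_mul_le _ _) (norm_mul_le _ _))
      _ ≤ (1 / 30 * ‖z‖ + ‖z‖ * (1 / 30)) * (30 / 29) := by
          gcongr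
      _ ≤ 1 / 10 * ‖z‖ := by
          have := norm_nonneg z
          linarith
  have hTn : ‖T‖ ≤ 21 / 100 := by
    refine (norm_add_le _ _).trans ?_
    rw [norm_smul]
    have h3 : ‖D ∘L D‖ ≤ ‖D‖ * ‖D‖ := ContinuousLinearMap.opNorm_comp_le _ _
    have h4 : ‖(2 : ℂ)‖ = 2 := by simp
    rw [h4]
    have h5 := norm_nonneg D
    nlinarith
  have hTS : ∀ z ∈ S, T z ∈ S := by
    intro z hz
    have e : T z = h * (h * (z * hi) * hi) - z := by
      simp only [hTd, hD, _root_.add_apply, _root_.smul_apply,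
        ContinuousLinearMap.comp_apply, _root_.sub_apply, Lr_apply,
        ContinuousLinearMap.id_apply, mul_sub, sub_mul, two_smul]
      abel
    rw [e]
    exact S.sub_mem (hT z hz) hz
  have hj1 : ∀ j, ‖Dj T j‖ ≤ 1 / 5 := by
    intro j
    induction j with
    | zero => simp [Dj]
    | succ j ih =>
      rw [Dj, norm_smul]
      have h3 : ‖Dj T j ∘L Dj T j‖ ≤ ‖Dj T j‖ * ‖Dj T j‖ := ContinuousLinearMap.opNorm_comp_le _ _
      have h4 : ‖(2⁻¹ : ℂ)‖ = 1 / 2 := by simp
      have h5 := norm_sub_le T (Dj T j ∘L Dj T j)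
      have h6 := norm_nonneg (Dj T j)
      rw [h4]
      nlinarith
  have hj2 : ∀ j, ∀ z ∈ S, Dj T j z ∈ S := by
    intro j
    induction j with
    | zero => intro z _; simp [Dj]
    | succ j ih =>
      intro z hz
      simp only [Dj, _root_.smul_apply, _root_.sub_apply,
        ContinuousLinearMap.comp_apply]
      exact S.smul_mem _ (S.sub_mem (hTS z hz) (ih _ (ih z hz)))
  have hj3 : ∀ j, ‖D - Dj T j‖ ≤ (3 / 20) ^ j := by
    intro j
    induction j with
    | zero => simp only [Dj, sub_zero, pow_zero]; linarith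
    | succ j ih =>
      have e : D - Dj T (j + 1) =
          (2⁻¹ : ℂ) • (-(D ∘L (D - Dj T j) + (D - Dj T j) ∘L Dj T j)) := by
        ext z
        simp only [Dj, hTd, _root_.smul_apply, _root_.sub_apply,
          ContinuousLinearMap.comp_apply, _root_.add_apply,
          _root_.neg_apply, map_sub]
        module
      rw [e, norm_smul, norm_neg]
      have h3 : ‖D ∘L (D - Dj T j)‖ ≤ ‖D‖ * ‖D - Dj T j‖ := ContinuousLinearMap.opNorm_comp_le _ _
      have h3' : ‖(D - Dj T j) ∘L Dj T j‖ ≤ ‖D - Dj T j‖ * ‖Dj T j‖ :=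
        ContinuousLinearMap.opNorm_comp_le _ _
      have h4 : ‖(2⁻¹ : ℂ)‖ = 1 / 2 := by simp
      have h5 := norm_add_le (D ∘L (D - Dj T j)) ((D - Dj T j) ∘L Dj T j)
      have h6 := norm_nonneg (D - Dj T j)
      have h7 := hj1 j
      have h8 := norm_nonneg (Dj T j)
      have h9 := norm_nonneg D
      rw [h4, pow_succ]
      nlinarith
  intro z hz
  have hlim : Filter.Tendsto (fun j => Dj T j z) Filter.atTop (nhds (D z)) := by
    rw [tendsto_iff_norm_sub_tendsto_zero]
    have hg : Filter.Tendsto (fun j : ℕ => ((3 / 20 : ℝ)) ^ j * ‖z‖) Filter.atTop (nhds (0 * ‖z‖)) :=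
      (tendsto_pow_atTop_nhds_zero_of_lt_one (by norm_num) (by norm_num)).mul_const _
    rw [zero_mul] at hg
    refine squeeze_zero (fun _ => norm_nonneg _) (fun j => ?_) hg
    rw [← norm_neg, neg_sub, ← _root_.sub_apply]
    exact ((D - Dj T j).le_opNorm z).trans (mul_le_mul_of_nonneg_right (hj3 j) (norm_nonneg _))
  have hDz : D z ∈ S := hS.mem_of_tendsto hlim (Filter.Eventually.of_forall fun j => hj2 j z hz)
  have e : h * (z * hi) = D z + z := by
    simp only [hD, _root_.sub_apply, Lr_apply, ContinuousLinearMap.id_apply]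
    abel
  rw [e]
  exact S.add_mem hDz hz

end root

section sqrt

variable {A : Type} [CStarAlgebra A]

theorem exists_sqrt (hone : ‖(1 : A)‖ ≤ 1) (w W : A) (h1 : w * W = 1) (h2 : W * w = 1)
    (hk : ‖w * star w - 1‖ ≤ 1 / 40) :
    ∃ h hi : A, star h = h ∧ star hi = hi ∧ h * hi = 1 ∧ hi * h = 1 ∧ h * h = w * star w ∧
      ‖h - 1‖ ≤ 1 / 30 ∧ ‖hi - 1‖ ≤ 1 / 30 := by
  set k := w * star w with hkd
  have hsa : IsSelfAdjoint k := IsSelfAdjoint.mul_star_self w
  have hpos : ∀ x ∈ spectrum ℝ k, 0 ≤ x := by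
    have := spectrum_star_mul_self_nonneg (b := star w)
    rwa [star_star] at this
  have hnear : ∀ x ∈ spectrum ℝ k, |x - 1| ≤ 1 / 40 := by
    intro x hx
    have h3 : ((x - 1 : ℝ)) ∈ spectrum ℝ (k - algebraMap ℝ A 1) := by
      rw [← spectrum.sub_singleton_eq]
      exact Set.sub_mem_sub hx rfl
    rw [map_one] at h3
    have h4 := spectrum.norm_le_norm_mul_of_mem h3
    have h5 : ‖k - 1‖ * ‖(1 : A)‖ ≤ 1 / 40 * 1 := mul_le_mul hk hone (norm_nonneg _) (by norm_num)
    rw [Real.norm_eq_abs] at h4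
    linarith
  set h : A := cfc (R := ℝ) Real.sqrt k with hh
  have hhh : h * h = k := by
    rw [hh, ← cfc_mul Real.sqrt Real.sqrt k (by fun_prop) (by fun_prop)]
    conv_rhs => rw [← cfc_id ℝ k]
    refine cfc_congr fun x hx => ?_
    simp only [id]
    exact Real.mul_self_sqrt (hpos x hx)
  have hsh : star h = h := (cfc_predicate (R := ℝ) Real.sqrt k : IsSelfAdjoint _)
  have hh1 : ‖h - 1‖ ≤ 1 / 40 := by
    have e : h - 1 = cfc (R := ℝ) (fun x => Real.sqrt x - 1) k := by
      rw [cfc_sub (R := ℝ) Real.sqrt (fun _ => 1) k (by fun_prop) (by fun_prop),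
        cfc_const_one ℝ k]
    rw [e]
    refine norm_cfc_le (by norm_num) fun x hx => ?_
    have h0 := hpos x hx
    have h3 := hnear x hx
    have h4 : |Real.sqrt x - 1| * (Real.sqrt x + 1) = |x - 1| := by
      have h5 : 0 ≤ Real.sqrt x + 1 := by positivity
      rw [← abs_of_nonneg h5, ← abs_mul]
      congr 1
      have := Real.mul_self_sqrt h0
      linear_combination this
    rw [Real.norm_eq_abs]
    have h6 := Real.sqrt_nonneg x
    have h7 := abs_nonneg (Real.sqrt x - 1)
    nlinarith
  -- the inverse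
  set ki : A := star W * W with hki
  have hkk : k * ki = 1 := by
    rw [hkd, hki]
    calc w * star w * (star W * W) = w * (star w * star W) * W := by simp only [mul_assoc]
      _ = w * star (W * w) * W := by rw [star_mul]
      _ = 1 := by rw [h2, star_one, mul_one, h1]
  have hkk' : ki * k = 1 := by
    rw [hkd, hki]
    calc star W * W * (w * star w) = star W * (W * w) * star w := by simp only [mul_assoc]
      _ = star (w * W) := by rw [h2, mul_one, star_mul]
      _ = 1 := by rw [h1, star_one]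
  have g1 : h * (h * ki) = 1 := by rw [← mul_assoc, hhh, hkk]
  have g2 : (ki * h) * h = 1 := by rw [mul_assoc, hhh, hkk']
  have g3 : ki * h = h * ki := by
    calc ki * h = ki * h * (h * (h * ki)) := by rw [g1, mul_one]
      _ = (ki * h * h) * (h * ki) := by simp only [mul_assoc]
      _ = h * ki := by rw [g2, one_mul]
  have ski : star ki = ki := by rw [hki, star_mul, star_star]
  refine ⟨h, h * ki, hsh, ?_, g1, ?_, hhh, hh1.trans (by norm_num), ?_⟩
  · rw [star_mul, hsh, ski, g3]
  · rw [← g3, g2]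
  · set hi := h * ki with hhi
    have e : hi - 1 = hi * (1 - h) := by rw [mul_sub, mul_one, ← g3, g2]
    have n1 : ‖hi - 1‖ ≤ ‖hi‖ * (1 / 40) := by
      rw [e]
      refine (norm_mul_le _ _).trans (mul_le_mul_of_nonneg_left ?_ (norm_nonneg _))
      rw [norm_sub_rev]; exact hh1
    have n2 : ‖hi‖ ≤ ‖hi - 1‖ + 1 := by
      calc ‖hi‖ = ‖(hi - 1) + 1‖ := by rw [sub_add_cancel]
        _ ≤ ‖hi - 1‖ + ‖(1 : A)‖ := norm_add_le _ _
        _ ≤ _ := by linarith
    linarith

end sqrt

open Pool.Agent.W662.KKS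

theorem pol : S_POL := by
  intro H _ _ _ M N w hw hMN
  set W : H →L[ℂ] H := ((w⁻¹ : (H →L[ℂ] H)ˣ) : H →L[ℂ] H) with hW
  have h1 : (w : H →L[ℂ] H) * W = 1 := w.mul_inv
  have h2 : W * (w : H →L[ℂ] H) = 1 := w.inv_mul
  set v : H →L[ℂ] H := (w : H →L[ℂ] H) with hv
  have hM : ∀ x, x ∈ M ↔ v * x * W ∈ N := by
    intro x
    have : x ∈ (M : Set (H →L[ℂ] H)) ↔ x ∈ conj w N := by rw [hMN]
    exact this
  have hone : ‖(1 : H →L[ℂ] H)‖ ≤ 1 := ContinuousLinearMap.norm_id_le
  have hvn : ‖v‖ ≤ 101 / 100 := by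
    calc ‖v‖ = ‖(v - 1) + 1‖ := by rw [sub_add_cancel]
      _ ≤ ‖v - 1‖ + ‖(1 : H →L[ℂ] H)‖ := norm_add_le _ _
      _ ≤ _ := by linarith
  have hk : ‖v * star v - 1‖ ≤ 1 / 40 := by
    have e : v * star v - 1 = (v - 1) * star v + star (v - 1) := by
      rw [star_sub, star_one, sub_mul, one_mul]; abel
    rw [e]
    calc ‖(v - 1) * star v + star (v - 1)‖ ≤ ‖v - 1‖ * ‖star v‖ + ‖star (v - 1)‖ :=
          (norm_add_le _ _).trans (add_le_add_left (norm_mul_le _ _) _)
      _ ≤ 1 / 100 * (101 / 100) + 1 / 100 := by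
          rw [norm_star, norm_star]
          gcongr
      _ ≤ _ := by norm_num
  obtain ⟨h, hi, sh, shi, e1, e2, e3, n1, n2⟩ := exists_sqrt hone v W h1 h2 hk
  -- `N` as a closed subspace
  set S : Submodule ℂ (H →L[ℂ] H) :=
    { carrier := N
      add_mem' := fun ha hb => add_mem ha hb
      zero_mem' := zero_mem _
      smul_mem' := fun c x hx => N.toStarSubalgebra.smul_mem hx c } with hS
  have hSm : ∀ x, x ∈ S ↔ x ∈ N := fun x => Iff.rfl
  have hcl : IsClosed (S : Set (H →L[ℂ] H)) := by
    have : (S : Set (H →L[ℂ] H)) = ⋂ y ∈ N.commutant, {x | y * x = x * y} := by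
      ext x
      simp only [Set.mem_iInter, Set.mem_ofPred_eq]
      change x ∈ N ↔ _
      conv_lhs => rw [← N.commutant_commutant]
      rw [VonNeumannAlgebra.mem_commutant_iff]
    rw [this]
    refine isClosed_biInter fun y _ => isClosed_eq (by fun_prop) (by fun_prop)
  set ki : H →L[ℂ] H := star W * W with hki
  have hkk : hi * hi = ki := by
    have a1 : (hi * hi) * (h * h) = 1 := by
      calc hi * hi * (h * h) = hi * (hi * h) * h := by simp only [mul_assoc]
        _ = 1 := by rw [e2, mul_one, e2]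
    have a2 : (v * star v) * ki = 1 := by
      rw [hki]
      calc v * star v * (star W * W) = v * (star v * star W) * W := by simp only [mul_assoc]
        _ = v * star (W * v) * W := by rw [star_mul]
        _ = 1 := by rw [h2, star_one, mul_one, h1]
    calc hi * hi = hi * hi * ((v * star v) * ki) := by rw [a2, mul_one]
      _ = (hi * hi * (h * h)) * ki := by rw [e3]; simp only [mul_assoc]
      _ = ki := by rw [a1, one_mul]
  -- `k⁻¹ z k ∈ N`
  have hA : ∀ z ∈ N, ki * z * (v * star v) ∈ N := by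
    intro z hz
    have m1 : W * z * v ∈ M := by
      rw [hM]
      have : v * (W * z * v) * W = z := by
        calc v * (W * z * v) * W = (v * W) * z * (v * W) := by simp only [mul_assoc]
          _ = z := by rw [h1, one_mul, mul_one]
      rw [this]; exact hz
    have m2 := (hM _).1 (star_mem m1)
    have m3 := star_mem m2
    have : star (v * star (W * z * v) * W) = ki * z * (v * star v) := by
      simp only [star_mul, star_star, hki, mul_assoc]
    rwa [this] at m3
  have hB : ∀ z ∈ N, (v * star v) * z * ki ∈ N := by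
    intro z hz
    have m1 := star_mem (hA _ (star_mem hz))
    have : star (ki * star z * (v * star v)) = (v * star v) * z * ki := by
      simp only [star_mul, star_star, hki, mul_assoc]
    rwa [this] at m1
  have hh : ∀ z ∈ S, h * (z * hi) ∈ S := by
    refine root_mem hone S hcl h hi e1 e2 n1 fun z hz => ?_
    have : h * (h * (z * hi) * hi) = (h * h) * z * (hi * hi) := by simp only [mul_assoc]
    rw [this, e3, hkk]
    exact hB z hz
  have hh' : ∀ z ∈ S, hi * (z * h) ∈ S := by
    refine root_mem hone S hcl hi h e2 e1 n2 fun z hz => ?_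
    have : hi * (hi * (z * h) * h) = (hi * hi) * z * (h * h) := by simp only [mul_assoc]
    rw [this, e3, hkk]
    exact hA z hz
  -- the unitary
  set u := hi * v with hu
  have su : star u = star v * hi := by rw [hu, star_mul, shi]
  have u1 : u * star u = 1 := by
    rw [su, hu]
    calc hi * v * (star v * hi) = hi * (v * star v) * hi := by simp only [mul_assoc]
      _ = (hi * h) * (h * hi) := by rw [← e3]; simp only [mul_assoc]
      _ = 1 := by rw [e1, e2, mul_one]
  have u2 : star u * u = 1 := by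
    rw [su, hu]
    calc star v * hi * (hi * v) = star v * (hi * hi) * v := by simp only [mul_assoc]
      _ = (star v * star W) * (W * v) := by rw [hkk, hki]; simp only [mul_assoc]
      _ = star v * star W := by rw [h2, mul_one]
      _ = star (W * v) := (star_mul W v).symm
      _ = 1 := by rw [h2, star_one]
  have hv' : v = h * u := by rw [hu, ← mul_assoc, e1, one_mul]
  have hWu : W = star u * hi := by
    calc W = W * (h * (u * star u) * hi) := by rw [u1, mul_one, e1, mul_one]
      _ = W * (h * u) * (star u * hi) := by simp only [mul_assoc]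
      _ = star u * hi := by rw [← hv', h2, one_mul]
  refine ⟨u, ⟨u2, u1⟩, fun x => ?_⟩
  rw [hM]
  have ex : v * x * W = h * ((u * x * star u) * hi) := by
    rw [hv', hWu]; simp only [mul_assoc]
  constructor
  · intro hx
    have := hh' _ ((hSm _).2 hx)
    rw [ex] at this
    have e : hi * (h * (u * x * star u * hi) * h) = u * x * star u := by
      calc hi * (h * (u * x * star u * hi) * h) = (hi * h) * (u * x * star u) * (hi * h) := by
            simp only [mul_assoc]
        _ = _ := by rw [e2, one_mul, mul_one]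
    rw [e] at this
    exact this
  · intro hx
    rw [ex]
    exact hh _ ((hSm _).2 hx)

end Pool.Agent.W345.KKS
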